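import Pool.Agent.W555.EQ.Stm

/-! Project EQ (helper555), part EQ-LOC. -/

set_option autoImplicit false

namespace Pool.Agent.W315.EQ

open Pool.Agent.W555.EQ

section

variable {V : Type} [DecidableEq V]

/-- the pinned coordinates -/
def pinS (u v : V) : Finset (V × Fin 2) := {(u, 0), (u, 1), (v, 1)}

/-- the free coordinates -/
abbrev Idx (u v : V) : Type := {x : V × Fin 2 // x ∉ pinS u v}

/-- the pinned realisation -/
def rl (u v : V) (y : Idx u v → ℂ) (x : V) (k : Fin 2) : ℂ :=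
  if h : (x, k) ∉ pinS u v then y ⟨(x, k), h⟩ else 0

/-- the coordinate polynomials -/
noncomputable def co (u v : V) (x : V) (k : Fin 2) : MvPolynomial (Idx u v) ℂ :=
  if h : (x, k) ∉ pinS u v then MvPolynomial.X ⟨(x, k), h⟩ else 0

lemma eval_co (u v : V) (y : Idx u v → ℂ) (x : V) (k : Fin 2) :
    MvPolynomial.eval y (co u v x k) = rl u v y x k := by
  unfold co rl
  split_ifs
  · simp
  · simp

/-- the squared length of the edge -/
noncomputable def pol (u v : V) (E : Sym2 V) : MvPolynomial (Idx u v) ℂ :=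
  ∑ k : Fin 2, (co u v (Quot.out E).1 k - co u v (Quot.out E).2 k) ^ 2

lemma ds_out (r : V → Fin 2 → ℂ) (E : Sym2 V) : ds r E = dd r (Quot.out E).1 (Quot.out E).2 := by
  have h : E = s((Quot.out E).1, (Quot.out E).2) := by
    conv_lhs => rw [← Quot.out_eq E]
  conv_lhs => rw [h]
  rfl

lemma eval_pol (u v : V) (y : Idx u v → ℂ) (E : Sym2 V) :
    MvPolynomial.eval y (pol u v E) = ds (rl u v y) E := by
  rw [ds_out]
  unfold pol dd
  rw [map_sum]
  refine Finset.sum_congr rfl fun k _ => ?_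
  rw [map_pow, map_sub, eval_co, eval_co]

lemma rl_inj (u v : V) : Function.Injective (rl u v) := by
  intro y y' h
  funext i
  have h1 := congrFun (congrFun h i.1.1) i.1.2
  unfold rl at h1
  rw [dif_pos i.2, dif_pos i.2] at h1
  exact h1

lemma rl_pinned (u v : V) (y : Idx u v → ℂ) : Pinned u v (rl u v y) := by
  refine ⟨fun k => ?_, ?_⟩
  · unfold rl
    rw [dif_neg]
    rw [not_not]
    unfold pinS
    fin_cases k <;> simp
  · unfold rl
    rw [dif_neg]
    rw [not_not]
    unfold pinS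
    simp

lemma pinned_rl (u v : V) (r : V → Fin 2 → ℂ) (h : Pinned u v r) :
    rl u v (fun i => r i.1.1 i.1.2) = r := by
  funext x k
  unfold rl
  by_cases h1 : (x, k) ∈ pinS u v
  · rw [dif_neg (not_not.2 h1)]
    unfold pinS at h1
    simp only [Finset.mem_insert, Finset.mem_singleton, Prod.mk.injEq] at h1
    rcases h1 with ⟨rfl, rfl⟩ | ⟨rfl, rfl⟩ | ⟨rfl, rfl⟩
    · exact (h.1 _).symm
    · exact (h.1 _).symm
    · exact h.2.symm
  · rw [dif_pos h1]

lemma cont_dd (u v : V) :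
    Continuous (fun y : Idx u v → ℂ => (fun a b => dd (rl u v y) a b : V → V → ℂ)) := by
  have h1 : ∀ x k, Continuous (fun y : Idx u v → ℂ => rl u v y x k) := by
    intro x k
    unfold rl
    by_cases h : (x, k) ∈ pinS u v
    · simp only [dif_neg (not_not.2 h)]
      exact continuous_const
    · simp only [dif_pos h]
      exact continuous_apply _
  refine continuous_pi fun a => continuous_pi fun b => ?_
  unfold dd
  exact continuous_finsetSum _ fun k _ => ((h1 a k).sub (h1 b k)).pow 2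

end

lemma exists_min {T : Type*} (s : Set T) (hs : s.Finite) (g : T → ℝ) (hg : ∀ x ∈ s, 0 < g x) :
    ∃ δ : ℝ, 0 < δ ∧ ∀ x ∈ s, δ ≤ g x := by
  induction s, hs using Set.Finite.induction_on with
  | empty => exact ⟨1, one_pos, fun x hx => hx.elim⟩
  | @insert a s _ _ ih =>
    obtain ⟨δ, h1, h2⟩ := ih (fun x hx => hg x (Set.mem_insert_of_mem _ hx))
    refine ⟨min δ (g a), lt_min h1 (hg a (Set.mem_insert _ _)), ?_⟩
    intro x hx
    rcases hx with rfl | hx
    · exact min_le_right _ _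
    · exact (min_le_left _ _).trans (h2 x hx)

theorem loc (ho : StOpenB) (hpin : StPin) : StLoc := by
  intro V _ G hcard q hq hfin
  classical
  obtain ⟨u, v, huv, hduv⟩ := hq
  have hne : u ≠ v := huv.ne
  obtain ⟨hpin1, hpin2⟩ := hpin V u v
  -- the equivalence
  have hcardI : Nat.card (Idx u v) = Nat.card G.edgeSet := by
    have h1 : Nat.card (Idx u v) = Fintype.card (V × Fin 2) - (pinS u v).card := by
      rw [Nat.card_eq_fintype_card]
      have h2 := Fintype.card_subtype_compl (fun x : V × Fin 2 => x ∈ pinS u v)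
      rw [Fintype.card_coe] at h2
      exact h2
    have h3 : (pinS u v).card = 3 := by
      unfold pinS
      rw [Finset.card_insert_of_notMem, Finset.card_insert_of_notMem, Finset.card_singleton]
      · simp [hne]
      · simp [hne]
    rw [h1, h3, Fintype.card_prod, Fintype.card_fin, Nat.card_coe_set_eq]
    omega
  obtain ⟨e⟩ : Nonempty (Idx u v ≃ G.edgeSet) := Finite.card_eq.1 hcardI
  let f : Idx u v → MvPolynomial (Idx u v) ℂ := fun i => pol u v (e i).1
  have hpm : ∀ y i, pm f y i = ds (rl u v y) (e i).1 := fun y i => eval_pol u v y _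
  -- members of the fibre
  have hmem : ∀ D ∈ Fib G (ds q), D u v ≠ 0 := by
    rintro D ⟨r, hr, rfl⟩
    have h1 := hr u v huv
    change dd r u v ≠ 0
    rw [h1]
    exact hduv
  have hy : ∀ D ∈ Fib G (ds q), ∃ y : Idx u v → ℂ, D = fun a b => dd (rl u v y) a b := by
    intro D hD
    have h0 := hmem D hD
    obtain ⟨r, hr, rfl⟩ := hD
    obtain ⟨r', hr', hrr'⟩ := hpin1 r h0
    refine ⟨fun i => r' i.1.1 i.1.2, ?_⟩
    rw [pinned_rl u v r' hr']
    funext a b
    exact (hrr' a b).symm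
  have hfibmem : ∀ (l : Sym2 V → ℂ) (y : Idx u v → ℂ), (∀ i, pm f y i = l (e i).1) →
      (fun a b => dd (rl u v y) a b) ∈ Fib G l := by
    intro l y hyl
    refine ⟨rl u v y, ?_, rfl⟩
    intro a b hab
    have h1 := hyl (e.symm ⟨s(a, b), hab⟩)
    rw [hpm, Equiv.apply_symm_apply] at h1
    exact h1
  -- finiteness of the fibre of `pm f`
  have hΦ : {y : Idx u v → ℂ | pm f y = fun i => ds q (e i).1}.Finite := by
    have hsub : {y : Idx u v → ℂ | pm f y = fun i => ds q (e i).1} ⊆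
        ⋃ D ∈ Fib G (ds q), {y | (fun a b => dd (rl u v y) a b) = D} := by
      intro y hy
      rw [Set.mem_iUnion₂]
      exact ⟨_, hfibmem (ds q) y (fun i => congrFun hy i), rfl⟩
    refine (Set.Finite.biUnion hfin ?_).subset hsub
    intro D hD
    obtain ⟨y0, hy0⟩ := hy D hD
    have h0 : dd (rl u v y0) u v ≠ 0 := by
      have := hmem D hD
      rw [hy0] at this
      exact this
    refine Set.Finite.of_finite_image ((hpin2 (rl u v y0) h0).subset ?_)
      ((rl_inj u v).injOn)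
    rintro _ ⟨y, hy1, rfl⟩
    refine ⟨rl_pinned u v y, fun a b => ?_⟩
    have hy2 : (fun a b => dd (rl u v y) a b) = D := hy1
    rw [hy0] at hy2
    exact congrFun (congrFun hy2 a) b
  choose! Y hY using hy
  have hYpm : ∀ D ∈ Fib G (ds q), pm f (Y D) = fun i => ds q (e i).1 := by
    intro D hD
    funext i
    rw [hpm]
    have h1 := hY D hD
    obtain ⟨r, hr, hr2⟩ := hD
    obtain ⟨E, hE⟩ : ∃ E, (e i).1 = E := ⟨_, rfl⟩
    have hEm : E ∈ G.edgeSet := hE ▸ (e i).2
    rw [hE]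
    induction E using Sym2.ind with
    | _ a b =>
      have h2 : dd r a b = dd (rl u v (Y D)) a b := by
        have h3 := h1.symm.trans hr2
        exact (congrFun (congrFun h3 a) b).symm
      have h4 := hr a b hEm
      rw [h2] at h4
      exact h4
  have hiso : ∀ D ∈ Fib G (ds q), ∃ ρ : ℝ, 0 < ρ ∧ ∀ y, dist y (Y D) < ρ →
      pm f y = pm f (Y D) → y = Y D := by
    intro D hD
    have h1 : ({y : Idx u v → ℂ | pm f y = fun i => ds q (e i).1} \ {Y D}).Finite := hΦ.sdiff
    have h2 : ({y : Idx u v → ℂ | pm f y = fun i => ds q (e i).1} \ {Y D})ᶜ ∈ nhds (Y D) :=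
      h1.isClosed.isOpen_compl.mem_nhds (fun h => h.2 rfl)
    obtain ⟨ρ, hρ, hb⟩ := Metric.mem_nhds_iff.1 h2
    refine ⟨ρ, hρ, fun y hy1 hy2 => ?_⟩
    by_contra h3
    refine hb (Metric.mem_ball.2 hy1) ⟨?_, h3⟩
    rw [Set.mem_ofPred_eq, hy2, hYpm D hD]
  -- separation
  obtain ⟨U, hU1, hU2⟩ := hfin.t2_separation
  have heps : ∀ D ∈ Fib G (ds q), ∃ ε : ℝ, 0 < ε ∧ ∀ y, dist y (Y D) < ε →
      (fun a b => dd (rl u v y) a b) ∈ U D := by
    intro D hD
    have h1 : (fun y : Idx u v → ℂ => (fun a b => dd (rl u v y) a b : V → V → ℂ)) ⁻¹' (U D) ∈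
        nhds (Y D) := by
      refine (cont_dd u v).continuousAt.preimage_mem_nhds ?_
      refine (hU1 D).2.mem_nhds ?_
      have h2 := hY D hD
      rw [← h2]
      exact (hU1 D).1
    obtain ⟨ε, hε, hb⟩ := Metric.mem_nhds_iff.1 h1
    exact ⟨ε, hε, fun y hy => hb (Metric.mem_ball.2 hy)⟩
  have hdel : ∀ D ∈ Fib G (ds q), ∃ δ : ℝ, 0 < δ ∧ ∀ z : Idx u v → ℂ, dist z (pm f (Y D)) < δ →
      ∃ y, (fun a b => dd (rl u v y) a b) ∈ U D ∧ pm f y = z := by
    intro D hD
    obtain ⟨ρ, hρ, h1⟩ := hiso D hD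
    obtain ⟨ε, hε, h2⟩ := heps D hD
    obtain ⟨δ, hδ, h3⟩ := ho (Idx u v) f (Y D) ρ hρ h1 ε hε
    refine ⟨δ, hδ, fun z hz => ?_⟩
    obtain ⟨y, hy1, hy2⟩ := h3 z hz
    exact ⟨y, h2 y hy1, hy2⟩
  choose! Δ hΔ0 hΔ using hdel
  obtain ⟨δ, hδ, hδ'⟩ := exists_min (Fib G (ds q)) hfin Δ hΔ0
  refine ⟨δ, hδ, fun l hl => ?_⟩
  have hex : ∀ D ∈ Fib G (ds q), ∃ y, (fun a b => dd (rl u v y) a b) ∈ U D ∧
      pm f y = fun i => l (e i).1 := by
    intro D hD
    refine hΔ D hD _ (lt_of_lt_of_le ?_ (hδ' D hD))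
    rw [hYpm D hD, dist_pi_lt_iff hδ]
    intro i
    rw [dist_eq_norm]
    exact hl _ (e i).2
  choose! W hW1 hW2 using hex
  refine Set.encard_le_encard_of_injOn (f := fun D => (fun a b => dd (rl u v (W D)) a b)) ?_ ?_
  · intro D hD
    exact hfibmem l (W D) (fun i => congrFun (hW2 D hD) i)
  · intro D hD D' hD' heq
    by_contra hne'
    have h1 := hU2 hD hD' hne'
    refine Set.disjoint_left.1 h1 (hW1 D hD) ?_
    have heq' : (fun a b => dd (rl u v (W D)) a b) = (fun a b => dd (rl u v (W D')) a b) := heq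
    rw [heq']
    exact hW1 D' hD'

end Pool.Agent.W315.EQ
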